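import Pool.Agent.Q163.BC.Chg

set_option autoImplicit false

/-!
# Signs at polynomial values after random changes at very few primes

Let `P` be a set of primes and let `χ` be the random completely multiplicative function with
independent fair signs at the primes of `P` and the value `1` at the other primes. Let `f` be an
integer polynomial. If `f` has an irreducible factor of odd multiplicity which has a root modulo
infinitely many primes of `P`, however thin this set is, then for every function `g : ℕ → {-1, 1}`,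
almost surely `g(m) χ(|f(m)|)` takes both signs with positive upper density in every residue class;
for irreducible `f` this condition is also necessary, and then all sign patterns occur. So for
arbitrarily thin sets `P` almost every completely multiplicative function which agrees with the
Liouville function off `P` takes both signs with positive upper density in every residue class at the
values of every polynomial which is not of the form `c g ^ 2`.
-/

namespace Pool.Agent.Results.MP_892e4c_nt.ArbitrarilyThinChanges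

open Finset Filter Topology Polynomial MeasureTheory ProbabilityTheory Pool.Agent.Q163.RP
  Pool.Agent.Q163.RX Pool.Agent.Q163.BC

open Classical in
/-- the completely multiplicative function with the value `1` or `-1` at the primes `p ∈ P`,
according to `ω p`, and the value `c` at the other primes -/
noncomputable def change (P : Set ℕ) (c : ℝ) (ω : ℕ → Bool) (n : ℕ) : ℝ :=
  ∏ p ∈ n.primeFactors, (if p ∈ P then (if ω p = true then 1 else -1) else c) ^ n.factorization p

open Classical in
/-- the set `S` of positive integers has positive upper density -/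
def PosDensity (S : ℕ → Prop) : Prop :=
  ∃ c : ℝ, 0 < c ∧ ∃ᶠ N : ℕ in atTop, c * N ≤ ((range N).filter S).card

/-- the polynomial `f` is a constant times a square -/
def IsSquare (f : ℤ[X]) : Prop := ∃ (c : ℤ) (g : ℤ[X]), f = C c * g ^ 2

/-- `h` takes both signs with positive upper density in every residue class -/
def BothSigns (h : ℕ → ℝ) : Prop := ∀ s : Bool, ∀ Q a : ℕ, 0 < Q →
  PosDensity fun m => m ≡ a [MOD Q] ∧ h m = if s = true then 1 else -1

/-- all sign patterns occur in `h`, with positive upper density in every residue class -/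
def AllPatterns (h : ℕ → ℝ) : Prop := ∀ n, 1 ≤ n → ∀ w : Fin n → Bool, ∀ Q a : ℕ, 0 < Q →
  PosDensity fun m => m ≡ a [MOD Q] ∧ Occurs h w m

lemma change_one (P : Set ℕ) (ω : ℕ → Bool) (n : ℕ) : change P 1 ω n = mult (sg P es ω) n := rfl

/-- the fixed part of the changed Liouville function -/
noncomputable def off (P : Set ℕ) (n : ℕ) : ℝ :=
  mult (fun p => by classical exact if p ∈ P then 1 else -1) n

lemma off_sign (P : Set ℕ) (n : ℕ) : off P n = 1 ∨ off P n = -1 :=
  (abs_eq zero_le_one).1 (abs_mult _ (fun p => by split_ifs <;> simp) n)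

lemma change_neg (P : Set ℕ) (ω : ℕ → Bool) (n : ℕ) : change P (-1) ω n = off P n * change P 1 ω n := by
  classical
  unfold off change mult
  rw [← Finset.prod_mul_distrib]
  refine Finset.prod_congr rfl fun p _ => ?_
  rw [← mul_pow]
  by_cases hp : p ∈ P
  · simp only [if_pos hp, one_mul]
  · simp only [if_neg hp, mul_one]

lemma posW_iff (S : ℕ → Prop) : PosW (fun N => N) S ↔ PosDensity S := Iff.rfl

lemma pos_mono {S S' : ℕ → Prop} (h : ∀ m, S m → S' m) (hS : PosDensity S) : PosDensity S' := by
  classical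
  obtain ⟨c, hc, h1⟩ := hS
  refine ⟨c, hc, h1.mono fun N hN => hN.trans ?_⟩
  have h2 : ((range N).filter S).card ≤ ((range N).filter S').card :=
    card_le_card fun m hm => by
      rw [mem_filter] at hm ⊢
      exact ⟨hm.1, h m hm.2⟩
  exact_mod_cast h2

lemma exists_of_pos {S : ℕ → Prop} (h : PosDensity S) : ∃ m, S m := by
  classical
  obtain ⟨c, hc, h1⟩ := h
  obtain ⟨N, hN, h2⟩ := (frequently_atTop.1 h1) 1
  by_contra hno
  push Not at hno
  have h3 : ((range N).filter S).card = 0 := by
    rw [card_eq_zero]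
    exact Finset.filter_eq_empty_iff.2 fun m _ => hno m
  have h4 : (0 : ℝ) < N := by exact_mod_cast (by omega : 0 < N)
  rw [h3, Nat.cast_zero] at h2
  have h6 : 0 < c * N := mul_pos hc h4
  linarith

/-- tuples of pairwise coprime polynomials -/
theorem tuples (P : Set ℕ) {n : ℕ} (hn : 1 ≤ n) (F : Fin n → ℤ[X])
    (hsep : ∀ i, ((F i).map (Int.castRingHom ℚ)).Separable)
    (hcop : ∀ i j, i ≠ j → IsCoprime ((F i).map (Int.castRingHom ℚ)) ((F j).map (Int.castRingHom ℚ)))
    (hP : ∀ j, (rootPrimes P (F j)).Infinite) (g : Fin n → ℕ → ℝ)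
    (hg : ∀ j m, g j m = 1 ∨ g j m = -1) :
    ∀ᵐ ω ∂cm, ∀ w : Fin n → Bool, ∀ Q a : ℕ, 0 < Q → PosDensity fun m => m ≡ a [MOD Q] ∧
      ∀ j, g j m * change P 1 ω (absVal (F j) m) = if w j = true then 1 else -1 := by
  rw [ae_all_iff]
  intro w
  rw [ae_all_iff]
  intro Q
  rw [ae_all_iff]
  intro a
  by_cases hQ : 0 < Q
  · have h1 := poly_int P hn F (fun _ => 1) hsep hcop (fun _ => one_ne_zero)
      (fun i j => by rw [Polynomial.map_one]; exact isCoprime_one_right) hP g hg Q a hQ w
    filter_upwards [h1] with ω hω _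
    refine pos_mono (fun m hm => ⟨hm.1, fun j => ?_⟩) ((posW_iff _).1 hω)
    have h2 := hm.2 j
    rw [LF_one] at h2
    exact h2
  · exact Eventually.of_forall fun ω h => absurd h hQ

/-- consecutive values of an irreducible polynomial -/
theorem consecutive (P : Set ℕ) (f : ℤ[X]) (hf : Irreducible f) (hd : 0 < f.natDegree)
    (hP : (rootPrimes P f).Infinite) (g : ℕ → ℝ) (hg : ∀ m, g m = 1 ∨ g m = -1) :
    ∀ᵐ ω ∂cm, AllPatterns fun m => g m * change P 1 ω (absVal f m) := by
  unfold AllPatterns
  rw [ae_all_iff]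
  intro n
  by_cases hn : 1 ≤ n
  · have h1 := tuples P hn (fun j : Fin n => tr f ((j : ℕ) + 1 : ℕ))
      (fun i => (irr_map (irr_tr hf _) (by rw [natDegree_tr]; exact hd)).separable)
      (fun i j hij => cop_map (irr_tr hf _) (by rw [natDegree_tr]; exact hd)
        (tr_not_dvd hf hd (fun h => hij (Fin.ext (by
          have h' : (i : ℕ) + 1 = (j : ℕ) + 1 := by exact_mod_cast h
          omega)))))
      (fun j => by rw [rootPrimes_tr]; exact hP) (fun j m => g (m + j + 1))
      (fun j m => hg _)
    filter_upwards [h1] with ω hω _ w Q a hQ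
    refine pos_mono (fun m hm => ⟨hm.1, fun j => ?_⟩) (hω w Q a hQ)
    have h2 := hm.2 j
    have h3 : absVal (tr f ((j : ℕ) + 1 : ℕ)) m = absVal f (m + j + 1) := by
      unfold absVal
      rw [tr_eval]
      congr 2
    rw [h3] at h2
    exact h2
  · exact Eventually.of_forall fun ω h => absurd h hn

/-- a factor of odd multiplicity -/
theorem odd_factor (P : Set ℕ) (F H : ℤ[X]) (e : ℕ) (hF : Irreducible F) (hd : 0 < F.natDegree)
    (hFH : ¬ F ∣ H) (hP : (rootPrimes P F).Infinite) (g : ℕ → ℝ) (hg : ∀ m, g m = 1 ∨ g m = -1) :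
    ∀ᵐ ω ∂cm, BothSigns fun m => g m * change P 1 ω (absVal (F ^ (2 * e + 1) * H) m) := by
  have hH : H ≠ 0 := fun h => hFH (h ▸ dvd_zero F)
  unfold BothSigns
  rw [ae_all_iff]
  intro s
  rw [ae_all_iff]
  intro Q
  rw [ae_all_iff]
  intro a
  by_cases hQ : 0 < Q
  · have h1 := poly_int P (n := 1) le_rfl (fun _ => F) (fun _ => H)
      (fun _ => (irr_map hF hd).separable) (fun i j hij => absurd (Subsingleton.elim i j) hij)
      (fun _ => hH) (fun _ _ => cop_map hF hd hFH) (fun _ => hP) (fun _ m => g m)
      (fun _ m => hg m) Q a hQ (fun _ => s)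
    filter_upwards [h1] with ω hω _
    refine pos_mono (fun m hm => ⟨hm.1, ?_⟩) ((posW_iff _).1 hω)
    have h2 := hm.2 0
    rw [change_one, val_odd, mult_odd _ (abs_sg signs P ω), ← val_mul]
    exact h2
  · exact Eventually.of_forall fun ω h => absurd h hQ

/-- the changed Liouville function at the values of one polynomial -/
theorem liouville_both (P : Set ℕ) (hP : ∀ F : ℤ[X], 0 < F.natDegree → (rootPrimes P F).Infinite)
    (f : ℤ[X]) (hf : ¬ IsSquare f) :
    ∀ᵐ ω ∂cm, BothSigns fun m => change P (-1) ω (absVal f m) := by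
  rcases odd_or_square f with h | ⟨F, e, H, hF, hd, hFH, hH, heq⟩
  · exact absurd h hf
  · have h1 := odd_factor P F H e hF hd hFH (hP F hd) (fun m => off P (absVal f m))
      (fun m => off_sign P _)
    filter_upwards [h1] with ω hω
    intro s Q a hQ
    refine pos_mono (fun m hm => ⟨hm.1, ?_⟩) (hω s Q a hQ)
    have h2 := hm.2
    simp only [← heq, ← change_neg] at h2
    exact h2

theorem liouville_patterns (P : Set ℕ) (f : ℤ[X]) (hf : Irreducible f) (hd : 0 < f.natDegree)
    (hP : (rootPrimes P f).Infinite) : ∀ᵐ ω ∂cm, AllPatterns fun m => change P (-1) ω (absVal f m) := by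
  have h1 := consecutive P f hf hd hP (fun m => off P (absVal f m)) (fun m => off_sign P _)
  filter_upwards [h1] with ω hω
  have h2 : (fun m => change P (-1) ω (absVal f m)) = fun m => off P (absVal f m) * change P 1 ω (absVal f m) := by
    funext m
    exact change_neg P ω _
  rw [h2]
  exact hω

/-- **Signs at polynomial values after random changes at very few primes.** -/
theorem result :
    -- (1) tuples of pairwise coprime polynomials
    (∀ (P : Set ℕ) (n : ℕ), 1 ≤ n → ∀ F : Fin n → ℤ[X],
      (∀ i, ((F i).map (Int.castRingHom ℚ)).Separable) →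
      (∀ i j, i ≠ j → IsCoprime ((F i).map (Int.castRingHom ℚ)) ((F j).map (Int.castRingHom ℚ))) →
      (∀ j, (rootPrimes P (F j)).Infinite) →
      ∀ g : Fin n → ℕ → ℝ, (∀ j m, g j m = 1 ∨ g j m = -1) →
      ∀ᵐ ω ∂cm, ∀ w : Fin n → Bool, ∀ Q a : ℕ, 0 < Q → PosDensity fun m => m ≡ a [MOD Q] ∧
        ∀ j, g j m * change P 1 ω (absVal (F j) m) = if w j = true then 1 else -1) ∧
    -- (2) consecutive values of an irreducible polynomial
    (∀ (P : Set ℕ) (f : ℤ[X]), Irreducible f → 0 < f.natDegree → (rootPrimes P f).Infinite →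
      ∀ g : ℕ → ℝ, (∀ m, g m = 1 ∨ g m = -1) →
        ∀ᵐ ω ∂cm, AllPatterns fun m => g m * change P 1 ω (absVal f m)) ∧
    -- (3) polynomials with a factor of odd multiplicity
    (∀ (P : Set ℕ) (F H : ℤ[X]) (e : ℕ), Irreducible F → 0 < F.natDegree → ¬ F ∣ H →
      (rootPrimes P F).Infinite → ∀ g : ℕ → ℝ, (∀ m, g m = 1 ∨ g m = -1) →
        ∀ᵐ ω ∂cm, BothSigns fun m => g m * change P 1 ω (absVal (F ^ (2 * e + 1) * H) m)) ∧
    -- (4) the exact condition for an irreducible polynomial
    (∀ (P : Set ℕ) (f : ℤ[X]), Irreducible f → 0 < f.natDegree →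
      ((rootPrimes P f).Infinite ↔ ∀ g : ℕ → ℝ, (∀ m, g m = 1 ∨ g m = -1) →
        ∀ᵐ ω ∂cm, BothSigns fun m => g m * change P 1 ω (absVal f m)) ∧
      (¬ (rootPrimes P f).Infinite → ∃ Q a : ℕ, 0 < Q ∧ ∀ ω : ℕ → Bool, ∀ m, m ≡ a [MOD Q] →
        change P 1 ω (absVal f m) = change P 1 ω (absVal f a))) ∧
    -- (5) arbitrarily thin sets of primes for all polynomials
    (∀ ψ : ℕ → ℕ, ∃ p : ℕ → ℕ, StrictMono p ∧ (∀ k, (p k).Prime) ∧ (∀ k, ψ k ≤ p k) ∧
      (∀ᵐ ω ∂cm, (∀ f : ℤ[X], ¬ IsSquare f →
          BothSigns fun m => change (Set.range p) (-1) ω (absVal f m)) ∧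
        ∀ f : ℤ[X], Irreducible f → 0 < f.natDegree →
          AllPatterns fun m => change (Set.range p) (-1) ω (absVal f m)) ∧
      ∃ h : ℕ → ℝ, (∀ n, h n = 1 ∨ h n = -1) ∧ (∀ m n, 1 ≤ m → 1 ≤ n → h (m * n) = h m * h n) ∧
        (∀ q : ℕ, q.Prime → q ∉ Set.range p → h q = -1) ∧
        (∀ f : ℤ[X], ¬ IsSquare f → BothSigns fun m => h (absVal f m)) ∧
        ∀ f : ℤ[X], Irreducible f → 0 < f.natDegree → AllPatterns fun m => h (absVal f m)) := by
  classical
  have hne : ∀ p : (ℕ → Bool) → Prop, (∀ᵐ ω ∂cm, p ω) → ∃ ω, p ω := fun p h => h.exists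
  have hcount := countable_poly
  have hconst : ∀ (P : Set ℕ) (f : ℤ[X]), Irreducible f → ¬ (rootPrimes P f).Infinite →
      ∃ Q a : ℕ, 0 < Q ∧ ∀ ω : ℕ → Bool, ∀ m, m ≡ a [MOD Q] →
        change P 1 ω (absVal f m) = change P 1 ω (absVal f a) := by
    intro P f hf hP
    obtain ⟨Q, a, hQ, h1⟩ := constant_class P f hf.ne_zero (Set.not_infinite.1 hP)
    refine ⟨Q, a, hQ, fun ω m hm => ?_⟩
    rw [change_one, change_one]
    exact h1 _ (fun p hp => by unfold sg; rw [if_neg hp]) m hm
  refine ⟨fun P n hn F hsep hcop hP g hg => tuples P hn F hsep hcop hP g hg,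
    fun P f hf hd hP g hg => consecutive P f hf hd hP g hg,
    fun P F H e hF hd hFH hP g hg => odd_factor P F H e hF hd hFH hP g hg,
    fun P f hf hd => ⟨⟨fun hP g hg => ?_, fun h => ?_⟩, hconst P f hf⟩, fun ψ => ?_⟩
  · have h1 := odd_factor P f 1 0 hf hd (fun h => hf.not_isUnit (isUnit_of_dvd_one h)) hP g hg
    simpa only [mul_zero, zero_add, pow_one, mul_one] using h1
  · by_contra hP
    obtain ⟨Q, a, hQ, h1⟩ := hconst P f hf hP
    obtain ⟨ω, hω⟩ := hne _ (h (fun _ => 1) fun _ => Or.inl rfl)
    obtain ⟨m, hm1, hm2⟩ := exists_of_pos (hω true Q a hQ)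
    obtain ⟨m', hm1', hm2'⟩ := exists_of_pos (hω false Q a hQ)
    simp only [one_mul, h1 ω m hm1, if_true] at hm2
    simp only [one_mul, h1 ω m' hm1', Bool.false_eq_true, if_false] at hm2'
    rw [hm2] at hm2'
    norm_num at hm2'
  · obtain ⟨p, hp1, hp2, hp3, hp4⟩ := thin ψ
    have hae : ∀ᵐ ω ∂cm, (∀ f : ℤ[X], ¬ IsSquare f →
          BothSigns fun m => change (Set.range p) (-1) ω (absVal f m)) ∧
        ∀ f : ℤ[X], Irreducible f → 0 < f.natDegree →
          AllPatterns fun m => change (Set.range p) (-1) ω (absVal f m) := by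
      have h1 : ∀ᵐ ω ∂cm, ∀ f : ℤ[X], ¬ IsSquare f →
          BothSigns fun m => change (Set.range p) (-1) ω (absVal f m) := by
        rw [ae_all_iff]
        intro f
        by_cases hf : IsSquare f
        · exact Eventually.of_forall fun ω h => absurd hf h
        · filter_upwards [liouville_both (Set.range p) hp4 f hf] with ω hω _
          exact hω
      have h2 : ∀ᵐ ω ∂cm, ∀ f : ℤ[X], Irreducible f → 0 < f.natDegree →
          AllPatterns fun m => change (Set.range p) (-1) ω (absVal f m) := by
        rw [ae_all_iff]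
        intro f
        by_cases hf : Irreducible f
        · by_cases hd : 0 < f.natDegree
          · filter_upwards [liouville_patterns (Set.range p) f hf hd (hp4 f hd)] with ω hω _ _
            exact hω
          · exact Eventually.of_forall fun ω _ h => absurd h hd
        · exact Eventually.of_forall fun ω h => absurd h hf
      filter_upwards [h1, h2] with ω hω1 hω2
      exact ⟨hω1, hω2⟩
    refine ⟨p, hp1, hp2, hp3, hae, ?_⟩
    obtain ⟨ω, hω1, hω2⟩ := hne _ hae
    have hcc : ∀ q, |if q ∈ Set.range p then (if ω q = true then 1 else -1) else (-1 : ℝ)| = 1 := by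
      intro q
      split_ifs <;> simp
    have he : change (Set.range p) (-1) ω =
        mult (fun q => if q ∈ Set.range p then (if ω q = true then 1 else -1) else (-1 : ℝ)) := by
      funext n
      unfold change mult
      refine Finset.prod_congr rfl fun q _ => ?_
      congr
    refine ⟨change (Set.range p) (-1) ω, fun n => ?_, fun m n hm hn => ?_, fun q hq hqP => ?_,
      hω1, hω2⟩
    · rw [he]
      exact (abs_eq zero_le_one).1 (abs_mult _ hcc n)
    · rw [he]
      exact mult_mul _ (by omega) (by omega)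
    · unfold change
      rw [hq.primeFactors, Finset.prod_singleton, hq.factorization_self, pow_one]
      exact if_neg hqP

end Pool.Agent.Results.MP_892e4c_nt.ArbitrarilyThinChanges
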