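import Pool.Agent.Q156.BW.B7

/-!
The Liouville function at `F(m) + k` against ARBITRARY weights, in windows of BOUNDED length at
the real zeros of `F + k`, for every integer polynomial `F` of degree `d ≥ 2` and almost all `k`;
in particular the Liouville function at the values of `G · (F + k)`, `G` an arbitrary fixed
polynomial.

Method: the second moment over `k` of the weighted sum over the values `0 < F(m) + k ≤ Y` is the
sum over the pairs `m, m'` of `w(m) w(m')` times the autocorrelation of `λ` on `[1,Y]` at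
`F(m') - F(m)`. The diagonal is at most `Y X^(1/d)`. Off the diagonal the inequality of Cauchy and
Schwarz removes the weights and leaves the squares of the autocorrelations; the square of the
autocorrelation at `h` is the sum over `l` of the autocorrelations at `h` of `v ↦ λ(v) λ(v + l)`, so
that the inverse theorem for the Weyl sums of `F(m + δ) - F(m)` applies for every `l`, and
Davenport's bound saves an arbitrary power of the logarithm.
-/

set_option autoImplicit false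

namespace Pool.Agent.Results.MP_892e4c_nt.ArbitraryWeights

open Finset
open scoped Polynomial

/-- the Liouville function on the integers: `(-1)^Ω(|v|)` for `v ≠ 0`, and `0` at `0` -/
noncomputable def lam (v : ℤ) : ℤ := if v = 0 then 0 else (-1) ^ ArithmeticFunction.cardFactors v.natAbs

lemma lam_cast (v : ℤ) : ((lam v : ℤ) : ℝ) = Pool.Agent.TH892.LW.lam v := by
  unfold lam Pool.Agent.TH892.LW.lam
  split_ifs <;> push_cast <;> rfl

lemma lam_mul (u v : ℤ) : lam (u * v) = lam u * lam v := by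
  unfold lam
  by_cases hu : u = 0
  · simp [hu]
  by_cases hv : v = 0
  · simp [hv]
  rw [if_neg (mul_ne_zero hu hv), if_neg hu, if_neg hv, Int.natAbs_mul,
    ArithmeticFunction.cardFactors_mul (by omega) (by omega), pow_add]

lemma lam_abs (v : ℤ) : ‖((lam v : ℤ) : ℂ)‖ ≤ 1 := by
  unfold lam
  split_ifs
  · simp
  · push_cast
    rw [norm_pow, norm_neg, norm_one, one_pow]

lemma rt_eq (k x : ℕ) (d : ℕ) (hd : d = k + 1) :
    Pool.Agent.TH204.WR.rt k x ^ k = (x : ℝ) ^ (1 - 1 / (d : ℝ)) := by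
  unfold Pool.Agent.TH204.WR.rt
  rw [← Real.rpow_natCast, ← Real.rpow_mul (Nat.cast_nonneg _)]
  congr 1
  rw [hd]
  push_cast
  have : (k : ℝ) + 1 ≠ 0 := by positivity
  field_simp
  ring

/-- **The Liouville function at `F(m) + k` against arbitrary weights in bounded windows at the real
zeros, for almost all `k`.** Let `F` be an integer polynomial of degree `d ≥ 2`, let `κ, ε, η > 0`
and let `W` be a natural number. There are `C > 0` and `X₀` such that for all `X ≥ X₀` and all real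
`H` with `1 ≤ H ≤ (log X)^W`:
* for ALL complex weights `w(m)`, `|w(m)| ≤ 1`, all but at most `C X / H` of the integers `k` with
  `η X ≤ |k| ≤ X` have the property that in ALL windows `a < m ≤ b` with `b - a ≥ H` on which
  `|F(m) + k| ≤ κ (b - a) X^(1 - 1/d)` the sums of `w(m) λ(F(m) + k)` and of `w(m) μ(|F(m) + k|)`
  are at most `ε (b - a)` in absolute value;
* for ALL integer polynomials `G` all but at most `C X / H` of the integers `k` with
  `η X ≤ |k| ≤ X` have the property that in ALL these windows the sum of `λ(G(m) (F(m) + k))` is at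
  most `ε (b - a)` in absolute value. -/
theorem result (F : ℤ[X]) (hF : 2 ≤ F.natDegree) (κ ε η : ℝ) (hκ : 0 < κ) (hε : 0 < ε) (hη : 0 < η) (W : ℕ) :
    ∃ C : ℝ, 0 < C ∧ ∃ X₀ : ℕ, ∀ X : ℕ, X₀ ≤ X → ∀ H : ℝ, 1 ≤ H → H ≤ Real.log X ^ W →
    (∀ w : ℤ → ℂ, (∀ m, ‖w m‖ ≤ 1) →
      ∃ Bad : Finset ℤ, (#Bad : ℝ) ≤ C * X / H ∧ ∀ k : ℤ, η * X ≤ |(k : ℝ)| → |(k : ℝ)| ≤ X → k ∉ Bad →
        ∀ a b : ℤ, H ≤ (b : ℝ) - a →
        (∀ m ∈ Ioc a b, |((F.eval m + k : ℤ) : ℝ)| ≤ κ * ((b : ℝ) - a) * (X : ℝ) ^ (1 - 1 / (F.natDegree : ℝ))) →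
          ‖∑ m ∈ Ioc a b, w m * ((lam (F.eval m + k) : ℤ) : ℂ)‖ ≤ ε * ((b : ℝ) - a) ∧
          ‖∑ m ∈ Ioc a b, w m * ((ArithmeticFunction.moebius (F.eval m + k).natAbs : ℤ) : ℂ)‖ ≤ ε * ((b : ℝ) - a)) ∧
    (∀ G : ℤ[X],
      ∃ Bad : Finset ℤ, (#Bad : ℝ) ≤ C * X / H ∧ ∀ k : ℤ, η * X ≤ |(k : ℝ)| → |(k : ℝ)| ≤ X → k ∉ Bad →
        ∀ a b : ℤ, H ≤ (b : ℝ) - a →
        (∀ m ∈ Ioc a b, |((F.eval m + k : ℤ) : ℝ)| ≤ κ * ((b : ℝ) - a) * (X : ℝ) ^ (1 - 1 / (F.natDegree : ℝ))) →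
          |∑ m ∈ Ioc a b, (lam (G.eval m * (F.eval m + k)) : ℝ)| ≤ ε * ((b : ℝ) - a)) := by
  classical
  obtain ⟨d, hd⟩ : ∃ d, F.natDegree = d + 1 := ⟨F.natDegree - 1, by omega⟩
  obtain ⟨K1, hK1, X1, h1⟩ := Pool.Agent.Q156.BW.core_c d (by omega) F hd κ ε η hκ hε hη W _
    Pool.Agent.TH892.LW.dav_lam Pool.Agent.TH892.LW.lam_neg Pool.Agent.TH892.LW.lam_zero
  obtain ⟨K2, hK2, X2, h2⟩ := Pool.Agent.Q156.BW.core_c d (by omega) F hd κ ε η hκ hε hη W _
    Pool.Agent.TH892.LW.dav_mob Pool.Agent.TH892.LW.mob_neg Pool.Agent.TH892.LW.mob_zero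
  have main : ∀ N : ℕ, max X1 X2 ≤ N → ∀ H : ℝ, 1 ≤ H → H ≤ Real.log N ^ W →
    ∀ w : ℤ → ℂ, (∀ m, ‖w m‖ ≤ 1) →
      ∃ Bad : Finset ℤ, (#Bad : ℝ) ≤ (K1 + K2) * N / H ∧ ∀ k : ℤ, η * N ≤ |(k : ℝ)| → |(k : ℝ)| ≤ N → k ∉ Bad →
        ∀ a b : ℤ, H ≤ (b : ℝ) - a →
        (∀ m ∈ Ioc a b, |((F.eval m + k : ℤ) : ℝ)| ≤ κ * ((b : ℝ) - a) * (N : ℝ) ^ (1 - 1 / (F.natDegree : ℝ))) →
          ‖∑ m ∈ Ioc a b, w m * ((lam (F.eval m + k) : ℤ) : ℂ)‖ ≤ ε * ((b : ℝ) - a) ∧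
          ‖∑ m ∈ Ioc a b, w m * ((ArithmeticFunction.moebius (F.eval m + k).natAbs : ℤ) : ℂ)‖ ≤ ε * ((b : ℝ) - a) := by
    intro N hN H hH1 hHW w hw
    obtain ⟨B1, -, hB1, g1⟩ := h1 N ((le_max_left _ _).trans hN) H hH1 hHW w hw
    obtain ⟨B2, -, hB2, g2⟩ := h2 N ((le_max_right _ _).trans hN) H hH1 hHW w hw
    have hrt := rt_eq d N F.natDegree hd
    rw [hrt] at g1 g2
    refine ⟨B1 ∪ B2, ?_, fun k hk1 hk2 hkB a b hab hv => ?_⟩
    · have c1 : (#(B1 ∪ B2) : ℝ) ≤ #B1 + #B2 := by exact_mod_cast card_union_le _ _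
      have e : (K1 + K2) * (N : ℝ) / H = K1 * (N / H) + K2 * (N / H) := by ring
      rw [e]
      linarith
    rw [mem_union, not_or] at hkB
    have hkI : k ∈ Icc (-(N : ℤ)) N := by
      rw [mem_Icc, ← abs_le]
      rw [← Int.cast_abs] at hk2
      exact_mod_cast hk2
    have hv' : ∀ m ∈ Ioc a b, |((F.eval m + k : ℤ) : ℝ)| ≤ κ * (((b : ℝ) - a) * (N : ℝ) ^ (1 - 1 / (F.natDegree : ℝ))) :=
      fun m hm => by rw [← mul_assoc]; exact hv m hm
    have a1 := g1 k hkI hk1 hkB.1 a b hab hv'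
    have a2 := g2 k hkI hk1 hkB.2 a b hab hv'
    constructor
    · refine le_trans (le_of_eq ?_) a1
      congr 1
      refine sum_congr rfl fun m _ => ?_
      rw [← lam_cast, Complex.ofReal_intCast]
    · refine le_trans (le_of_eq ?_) a2
      congr 1
  refine ⟨K1 + K2, by positivity, max X1 X2, fun N hN H hH1 hHW => ⟨main N hN H hH1 hHW, fun G => ?_⟩⟩
  obtain ⟨Bad, hB, g⟩ := main N hN H hH1 hHW (fun m => ((lam (G.eval m) : ℤ) : ℂ)) (fun m => lam_abs _)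
  refine ⟨Bad, hB, fun k hk1 hk2 hkB a b hab hv => ?_⟩
  have a1 := (g k hk1 hk2 hkB a b hab hv).1
  have e : ∑ m ∈ Ioc a b, ((lam (G.eval m) : ℤ) : ℂ) * ((lam (F.eval m + k) : ℤ) : ℂ) =
      (((∑ m ∈ Ioc a b, lam (G.eval m * (F.eval m + k)) : ℤ)) : ℂ) := by
    push_cast
    refine sum_congr rfl fun m _ => ?_
    rw [lam_mul]
    push_cast
    rfl
  rw [e, Complex.norm_intCast] at a1
  push_cast at a1
  exact a1

end Pool.Agent.Results.MP_892e4c_nt.ArbitraryWeights
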