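import Pool.Agent.Q132.PV.D

/-!
# Chowla's conjecture for all polynomials and the one-sided two-point correlations of `λ(h(n))`, `h` monic

Objects from Mathlib used in the statement: `Polynomial.eval n f = f(n)`; `Polynomial.Monic`: the leading
coefficient is one; `Squarefree F`: no square of a non-unit of `ℤ[X]` divides `F`; `h.comp (X + C t)`: the polynomial
`h(X + t)`; `Polynomial.aeval z F`: the value of `F` at the complex number `z`;
`ArithmeticFunction.cardFactors m = Ω(m)`; `Asymptotics.IsLittleO`; `List.TFAE`: the statements are equivalent.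
-/

set_option autoImplicit false

open Finset Polynomial

namespace Pool.Agent.Results.MP_892e4c_nt.MonicTwoPoint

/-- the Liouville function on the integers, `λ(-m) = λ(m)`, `λ(0) = 0` -/
noncomputable def lam (m : ℤ) : ℝ := if m = 0 then 0 else (-1) ^ (ArithmeticFunction.cardFactors m.natAbs)

/-- `f = c g ^ 2` -/
def Excluded (f : ℤ[X]) : Prop := ∃ (c : ℤ) (g : ℤ[X]), f = C c * g ^ 2

/-- Q1, the formula of the frozen statement -/
def Chowla : Prop := ∀ f : ℤ[X], ¬ Excluded f →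
  Asymptotics.IsLittleO Filter.atTop
    (fun N : ℕ => ∑ n ∈ Icc 1 N, (-1 : ℝ) ^ (ArithmeticFunction.cardFactors (f.eval (n : ℤ)).natAbs))
    (fun N : ℕ => (N : ℝ))

/-- Bochner almost periodic sequences: the translates of `w` are totally bounded for the supremum norm -/
def AlmostPeriodic (w : ℕ → ℂ) : Prop :=
  ∀ ε : ℝ, 0 < ε → ∃ K : ℕ, ∀ s : ℕ, ∃ k < K, ∀ m : ℕ, ‖w (m + s) - w (m + k)‖ ≤ ε

/-- the conjecture with almost periodic weights -/
def Twisted : Prop := ∀ f : ℤ[X], ¬ Excluded f → ∀ w : ℕ → ℂ, AlmostPeriodic w →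
  Asymptotics.IsLittleO Filter.atTop
    (fun N : ℕ => ∑ n ∈ Icc 1 N, ((lam (f.eval (n : ℤ)) : ℝ) : ℂ) * w n) (fun N : ℕ => (N : ℝ))

/-- sets of scales with bounded ratios: every interval `[x, B x]` contains an element -/
def Scales (A : Set ℕ) : Prop := ∃ B : ℕ, ∀ x : ℕ, 1 ≤ x → ∃ N ∈ A, x ≤ N ∧ N ≤ B * x

/-- any two distinct complex roots are at distance at least `D` -/
def RootsApart (D : ℝ) (f : ℤ[X]) : Prop :=
  ∀ x y : ℂ, aeval x f = 0 → aeval y f = 0 → x ≠ y → D ≤ ‖x - y‖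

/-- the upper bound `limsup (1 / N) ∑ λ(F(n)) ≤ 0` along `A`, for `F = h(X) h(X + t)` only, where `h` is monic of
positive degree, all its other coefficients are divisible by `M`, `t` is a positive multiple of `M` and a difference
of two elements of `S h`, and the roots of `F` are simple and at mutual distances at least `D` -/
def WeakMonic (M : ℕ) (D : ℝ) (S A : ℤ[X] → Set ℕ) : Prop :=
  ∀ h : ℤ[X], h.Monic → 1 ≤ h.natDegree → (∀ i < h.natDegree, (M : ℤ) ∣ h.coeff i) →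
    ∀ s ∈ S h, ∀ s' ∈ S h, ∀ t : ℕ, 1 ≤ t → s' = s + t → M ∣ t →
    Squarefree (h * h.comp (X + C (t : ℤ))) → RootsApart D (h * h.comp (X + C (t : ℤ))) →
    ∀ ε : ℝ, 0 < ε → ∃ N₀ : ℕ, ∀ N ∈ A h, N₀ ≤ N →
      ∑ n ∈ Icc 1 N, lam ((h * h.comp (X + C (t : ℤ))).eval (n : ℤ)) ≤ ε * N

/-- Q1 for the products of the members of a finite set of pairwise non-proportional forms `a n + b`, `a, b ≥ 1`
(the set `P` consists of the pairs `(a, b)`) -/
def LinearForms : Prop := ∀ P : Finset (ℕ × ℕ), P.Nonempty → (∀ p ∈ P, 1 ≤ p.1 ∧ 1 ≤ p.2) →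
  (∀ p ∈ P, ∀ p' ∈ P, p ≠ p' → p.1 * p'.2 ≠ p'.1 * p.2) →
  Asymptotics.IsLittleO Filter.atTop
    (fun N : ℕ => ∑ n ∈ Icc 1 N, ∏ p ∈ P, lam ((p.1 : ℤ) * n + p.2)) (fun N : ℕ => (N : ℝ))

/-- the same with almost periodic weights -/
def LinearTwisted : Prop := ∀ P : Finset (ℕ × ℕ), P.Nonempty → (∀ p ∈ P, 1 ≤ p.1 ∧ 1 ≤ p.2) →
  (∀ p ∈ P, ∀ p' ∈ P, p ≠ p' → p.1 * p'.2 ≠ p'.1 * p.2) → ∀ w : ℕ → ℂ, AlmostPeriodic w →
  Asymptotics.IsLittleO Filter.atTop
    (fun N : ℕ => ∑ n ∈ Icc 1 N, ((∏ p ∈ P, lam ((p.1 : ℤ) * n + p.2) : ℝ) : ℂ) * w n) (fun N : ℕ => (N : ℝ))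

/-- the upper bound for the pure shifts `c`, `c + t`, `c ∈ C`: all of them and `t` are positive multiples of `M`, at
mutual distances at least `D`, `t` is a difference of two elements of `S C`, along the scales `A C` -/
def WeakShifts (M D : ℕ) (S A : Finset ℕ → Set ℕ) : Prop :=
  ∀ C : Finset ℕ, C.Nonempty → (∀ c ∈ C, 1 ≤ c ∧ M ∣ c) → (∀ c ∈ C, ∀ c' ∈ C, c < c' → c + D ≤ c') →
    ∀ s ∈ S C, ∀ s' ∈ S C, ∀ t : ℕ, s' = s + t → M ∣ t → (∀ c ∈ C, c + D ≤ t) →
    ∀ ε : ℝ, 0 < ε → ∃ N₀ : ℕ, ∀ N ∈ A C, N₀ ≤ N →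
      ∑ n ∈ Icc 1 N, ∏ c ∈ C, lam ((n : ℤ) + c) * lam ((n : ℤ) + c + t) ≤ ε * N

/-- the two normalizations of the Liouville function differ at finitely many `n` only -/
lemma frozen_diff (f : ℤ[X]) (hf : f ≠ 0) : ∃ K : ℝ, ∀ N : ℕ,
    |∑ n ∈ Icc 1 N, (-1 : ℝ) ^ (ArithmeticFunction.cardFactors (f.eval (n : ℤ)).natAbs) -
      ∑ n ∈ Icc 1 N, lam (f.eval (n : ℤ))| ≤ K := by
  classical
  refine ⟨(f.roots.toFinset.card : ℝ), fun N => ?_⟩
  rw [← sum_sub_distrib]
  have h1 : ∀ n ∈ Icc 1 N, |(-1 : ℝ) ^ (ArithmeticFunction.cardFactors (f.eval (n : ℤ)).natAbs) -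
      lam (f.eval (n : ℤ))| ≤ if (n : ℤ) ∈ f.roots.toFinset then (1 : ℝ) else 0 := by
    intro n _
    unfold lam
    by_cases h : f.eval (n : ℤ) = 0
    · have h2 : (n : ℤ) ∈ f.roots.toFinset := by
        rw [Multiset.mem_toFinset, mem_roots hf]
        exact h
      rw [if_pos h, if_pos h2, h]
      simp
    · rw [if_neg h, sub_self, abs_zero]
      split_ifs <;> norm_num
  calc _ ≤ ∑ n ∈ Icc 1 N, |(-1 : ℝ) ^ (ArithmeticFunction.cardFactors (f.eval (n : ℤ)).natAbs) -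
        lam (f.eval (n : ℤ))| := abs_sum_le_sum_abs _ _
    _ ≤ ∑ n ∈ Icc 1 N, (if (n : ℤ) ∈ f.roots.toFinset then (1 : ℝ) else 0) := sum_le_sum h1
    _ = (((Icc 1 N).filter (fun n : ℕ => (n : ℤ) ∈ f.roots.toFinset)).card : ℝ) := by
        rw [← sum_filter, sum_const, nsmul_eq_mul, mul_one]
    _ ≤ (f.roots.toFinset.card : ℝ) := by
        have : ((Icc 1 N).filter (fun n : ℕ => (n : ℤ) ∈ f.roots.toFinset)).card ≤ f.roots.toFinset.card := by
          apply Finset.card_le_card_of_injOn (fun n : ℕ => (n : ℤ))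
          · intro n hn
            exact (mem_filter.1 hn).2
          · intro x _ y _ h
            have h' : (x : ℤ) = (y : ℤ) := h
            exact_mod_cast h'
        exact_mod_cast this

/-- a polynomial `F` with `F ≠ c g ^ 2` is not zero -/
lemma ne_zero_of_not {f : ℤ[X]} (hf : ¬ Excluded f) : f ≠ 0 := by
  rintro rfl
  exact hf ⟨0, 0, by simp⟩

lemma twisted_chowla (h : Twisted) : Chowla := by
  intro f hf
  have h1 := h f hf (fun _ => 1) (fun ε hε => ⟨1, fun s => ⟨0, one_pos, fun m => by simp [hε.le]⟩⟩)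
  obtain ⟨K, hK⟩ := frozen_diff f (ne_zero_of_not hf)
  rw [Asymptotics.isLittleO_iff] at h1 ⊢
  intro ε hε
  have h2 := h1 (half_pos hε)
  obtain ⟨N₁, hN₁⟩ := exists_nat_ge (K / (ε / 2))
  filter_upwards [h2, Filter.eventually_ge_atTop N₁] with N hN hN'
  have e1 : ‖∑ n ∈ Icc 1 N, ((lam (f.eval (n : ℤ)) : ℝ) : ℂ) * (1 : ℂ)‖ =
      |∑ n ∈ Icc 1 N, lam (f.eval (n : ℤ))| := by
    simp only [mul_one]
    rw [← Complex.ofReal_sum, Complex.norm_real, Real.norm_eq_abs]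
  rw [e1] at hN
  have h3 := hK N
  have h4 : K ≤ ε / 2 * N := by
    have : K / (ε / 2) ≤ N := hN₁.trans (by exact_mod_cast hN')
    rw [div_le_iff₀ (by positivity)] at this
    linarith
  rw [Real.norm_eq_abs] at hN
  rw [Real.norm_eq_abs, Real.norm_eq_abs]
  have h5 : |(N : ℝ)| = N := abs_of_nonneg (Nat.cast_nonneg _)
  rw [h5] at hN ⊢
  rw [abs_le] at hN h3 ⊢
  constructor <;> linarith [hN.1, hN.2, h3.1, h3.2]

lemma chowla_weak (h : Chowla) (M : ℕ) (D : ℝ) (S A : ℤ[X] → Set ℕ) : WeakMonic M D S A := by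
  intro p hp hd _ s _ s' _ t _ _ _ hsq _ ε hε
  set F : ℤ[X] := p * p.comp (X + C (t : ℤ)) with hF
  have hFm : F.Monic := by
    refine hp.mul (hp.comp (monic_X_add_C _) ?_)
    rw [natDegree_X_add_C]
    exact one_ne_zero
  have hFd : 1 ≤ F.natDegree := by
    rw [hF, hp.natDegree_mul (hp.comp (monic_X_add_C _) (by rw [natDegree_X_add_C]; exact one_ne_zero))]
    omega
  have hex : ¬ Excluded F := by
    rintro ⟨c, g, hg⟩
    have h1 : g * g ∣ F := ⟨C c, by rw [hg]; ring⟩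
    have h2 := hsq g h1
    have h3 : g.natDegree = 0 := natDegree_eq_zero_of_isUnit h2
    have h4 : F.natDegree = 0 := by
      rw [hg]
      apply Nat.eq_zero_of_le_zero
      calc (C c * g ^ 2).natDegree ≤ (C c).natDegree + (g ^ 2).natDegree := natDegree_mul_le
        _ = (g ^ 2).natDegree := by rw [natDegree_C, zero_add]
        _ ≤ 2 * g.natDegree := natDegree_pow_le
        _ = 0 := by rw [h3]
    omega
  have h1 := h F hex
  obtain ⟨K, hK⟩ := frozen_diff F (ne_zero_of_not hex)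
  rw [Asymptotics.isLittleO_iff] at h1
  have h2 := h1 (half_pos hε)
  obtain ⟨N₁, hN₁⟩ := exists_nat_ge (K / (ε / 2))
  obtain ⟨N₂, hN₂⟩ := Filter.eventually_atTop.1 h2
  refine ⟨max N₁ N₂, fun N _ hN => ?_⟩
  have h3 := hK N
  have h4 := hN₂ N ((le_max_right _ _).trans hN)
  have h5 : K ≤ ε / 2 * N := by
    have : K / (ε / 2) ≤ N := hN₁.trans (by exact_mod_cast (le_max_left _ _).trans hN)
    rw [div_le_iff₀ (by positivity)] at this
    linarith
  rw [Real.norm_eq_abs, Real.norm_eq_abs, abs_of_nonneg (Nat.cast_nonneg (α := ℝ) N)] at h4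
  rw [abs_le] at h3 h4
  linarith [h3.1, h4.2]

lemma weak_twisted (M : ℕ) (hM : 1 ≤ M) (D : ℝ) (S A : ℤ[X] → Set ℕ) (hS : ∀ h, (S h).Infinite)
    (hA : ∀ h, Scales (A h)) (hW : WeakMonic M D S A) : Twisted := by
  classical
  intro f hf w hw
  obtain ⟨c, a, g, hc, hap, has, he⟩ := Q132.PV.decomp f (ne_zero_of_not hf)
  have hg0 : g ≠ 0 := by
    rintro rfl
    apply ne_zero_of_not hf
    rw [he]
    simp
  have had : 1 ≤ a.natDegree := by
    by_contra hcon
    have h1 : a.natDegree = 0 := by omega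
    obtain ⟨u, rfl⟩ := natDegree_eq_zero.1 h1
    apply hf
    refine ⟨c * u, g, ?_⟩
    rw [he, C_mul]
  obtain ⟨W, hW1, hWw⟩ := Q132.PV.AlmostPeriodic.bdd hw
  rw [Asymptotics.isLittleO_iff]
  intro ε hε
  obtain ⟨x₀, hx₀⟩ := Q132.PV.weak_strong M hM D S A hS hA hW a has had w hw (ε / 2) (half_pos hε)
  set Z : Finset ℤ := g.roots.toFinset with hZ
  obtain ⟨x₁, hx₁⟩ := exists_nat_ge (W * Z.card / (ε / 2))
  filter_upwards [Filter.eventually_ge_atTop (max x₀ x₁)] with x hx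
  have h1 := hx₀ x ((le_max_left _ _).trans hx)
  have hlam : ∀ m : ℤ, Q132.PV.lam m = lam m := fun m => rfl
  -- the difference
  have h2 : ∀ n : ℕ, ‖((lam (f.eval (n : ℤ)) : ℝ) : ℂ) * w n -
      (lam c : ℂ) * (((lam (a.eval (n : ℤ)) : ℝ) : ℂ) * w n)‖ ≤ if (n : ℤ) ∈ Z then W else 0 := by
    intro n
    have e1 : lam (f.eval (n : ℤ)) = lam c * lam (a.eval (n : ℤ)) * lam (g.eval (n : ℤ)) ^ 2 := by
      rw [he, eval_mul, eval_mul, eval_C, eval_pow]
      rw [← hlam, ← hlam, ← hlam, ← hlam, Q132.PV.lam_mul, Q132.PV.lam_mul, Q132.PV.lam_pow]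
    by_cases hg : g.eval (n : ℤ) = 0
    · have hmem : (n : ℤ) ∈ Z := by
        rw [hZ, Multiset.mem_toFinset, mem_roots hg0]
        exact hg
      rw [if_pos hmem]
      have e2 : lam (f.eval (n : ℤ)) = 0 := by
        rw [e1, hg]
        simp [lam]
      rw [e2, Complex.ofReal_zero, zero_mul, zero_sub, norm_neg, norm_mul, norm_mul, Complex.norm_real,
        Complex.norm_real, Real.norm_eq_abs, Real.norm_eq_abs]
      calc |lam c| * (|lam (a.eval (n : ℤ))| * ‖w n‖) ≤ 1 * (1 * W) := by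
            apply mul_le_mul (Q132.PV.lam_abs _) _ (by positivity) zero_le_one
            exact mul_le_mul (Q132.PV.lam_abs _) (hWw n) (norm_nonneg _) zero_le_one
        _ = W := by ring
    · have e2 : lam (g.eval (n : ℤ)) ^ 2 = 1 := Q132.PV.lam_sq hg
      rw [e1, e2, mul_one]
      have e3 : (((lam c * lam (a.eval (n : ℤ)) : ℝ)) : ℂ) * w n -
          (lam c : ℂ) * (((lam (a.eval (n : ℤ)) : ℝ) : ℂ) * w n) = 0 := by
        push_cast
        ring
      rw [e3, norm_zero]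
      split_ifs <;> linarith
  have h3 : ‖∑ n ∈ Icc 1 x, ((lam (f.eval (n : ℤ)) : ℝ) : ℂ) * w n -
      (lam c : ℂ) * ∑ n ∈ Icc 1 x, ((lam (a.eval (n : ℤ)) : ℝ) : ℂ) * w n‖ ≤ W * Z.card := by
    rw [mul_sum, ← sum_sub_distrib]
    calc _ ≤ ∑ n ∈ Icc 1 x, (if (n : ℤ) ∈ Z then W else 0) :=
          (norm_sum_le _ _).trans (sum_le_sum fun n _ => h2 n)
      _ = W * (((Icc 1 x).filter (fun n : ℕ => (n : ℤ) ∈ Z)).card : ℝ) := by
          rw [← sum_filter, sum_const, nsmul_eq_mul, mul_comm]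
      _ ≤ W * Z.card := by
          have : ((Icc 1 x).filter (fun n : ℕ => (n : ℤ) ∈ Z)).card ≤ Z.card := by
            apply Finset.card_le_card_of_injOn (fun n : ℕ => (n : ℤ))
            · intro n hn
              exact (mem_filter.1 hn).2
            · intro x _ y _ h
              have h' : (x : ℤ) = (y : ℤ) := h
              exact_mod_cast h'
          apply mul_le_mul_of_nonneg_left (by exact_mod_cast this) (by linarith)
  have h4 : W * Z.card ≤ ε / 2 * x := by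
    have : W * Z.card / (ε / 2) ≤ x := hx₁.trans (by exact_mod_cast (le_max_right _ _).trans hx)
    rw [div_le_iff₀ (by positivity)] at this
    linarith
  have h5 : ‖(lam c : ℂ) * ∑ n ∈ Icc 1 x, ((lam (a.eval (n : ℤ)) : ℝ) : ℂ) * w n‖ ≤ ε / 2 * x := by
    rw [norm_mul, Complex.norm_real, Real.norm_eq_abs]
    calc |lam c| * ‖∑ n ∈ Icc 1 x, ((lam (a.eval (n : ℤ)) : ℝ) : ℂ) * w n‖ ≤ 1 * (ε / 2 * x) := by
          apply mul_le_mul (Q132.PV.lam_abs _) h1 (norm_nonneg _) zero_le_one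
      _ = _ := one_mul _
  rw [Real.norm_eq_abs, abs_of_nonneg (Nat.cast_nonneg (α := ℝ) x)]
  calc ‖∑ n ∈ Icc 1 x, ((lam (f.eval (n : ℤ)) : ℝ) : ℂ) * w n‖
      = ‖(∑ n ∈ Icc 1 x, ((lam (f.eval (n : ℤ)) : ℝ) : ℂ) * w n -
        (lam c : ℂ) * ∑ n ∈ Icc 1 x, ((lam (a.eval (n : ℤ)) : ℝ) : ℂ) * w n) +
        (lam c : ℂ) * ∑ n ∈ Icc 1 x, ((lam (a.eval (n : ℤ)) : ℝ) : ℂ) * w n‖ := by
        rw [sub_add_cancel]
    _ ≤ W * Z.card + ε / 2 * x := (norm_add_le _ _).trans (add_le_add h3 h5)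
    _ ≤ ε * x := by linarith

lemma linear_weak (h : LinearForms) (M D : ℕ) (hD : 1 ≤ D) (S A : Finset ℕ → Set ℕ) : WeakShifts M D S A := by
  classical
  intro Cs hne hC _ s _ s' _ t _ _ ht ε hε
  have hdisj : Disjoint (Cs.image (fun c => (1, c))) (Cs.image (fun c => ((1, c + t) : ℕ × ℕ))) := by
    rw [Finset.disjoint_left]
    intro x hx hx'
    obtain ⟨c, hc, rfl⟩ := mem_image.1 hx
    obtain ⟨c', hc', he⟩ := mem_image.1 hx'
    rw [Prod.mk.injEq] at he
    have h1 := ht c hc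
    omega
  have h1 := h (Cs.image (fun c => (1, c)) ∪ Cs.image (fun c => (1, c + t))) ?_ ?_ ?_
  · rw [Asymptotics.isLittleO_iff] at h1
    obtain ⟨N₀, hN₀⟩ := Filter.eventually_atTop.1 (h1 hε)
    refine ⟨N₀, fun N _ hN => ?_⟩
    have h2 := hN₀ N hN
    rw [Real.norm_eq_abs, Real.norm_eq_abs, abs_of_nonneg (Nat.cast_nonneg (α := ℝ) N)] at h2
    refine le_trans (le_of_eq ?_) ((le_abs_self _).trans h2)
    refine sum_congr rfl fun n _ => ?_
    rw [prod_union hdisj, prod_image (by intro x _ y _ hxy; simpa using hxy),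
      prod_image (by intro x _ y _ hxy; simpa using hxy), ← prod_mul_distrib]
    refine prod_congr rfl fun c _ => ?_
    push_cast
    rw [one_mul, add_assoc]
  · obtain ⟨c, hc⟩ := hne
    exact ⟨(1, c), mem_union_left _ (mem_image_of_mem _ hc)⟩
  · intro p hp
    rcases mem_union.1 hp with hp | hp
    · obtain ⟨c, hc, rfl⟩ := mem_image.1 hp
      exact ⟨le_rfl, (hC c hc).1⟩
    · obtain ⟨c, hc, rfl⟩ := mem_image.1 hp
      have := (hC c hc).1
      exact ⟨le_rfl, by show 1 ≤ c + t; omega⟩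
  · have h11 : ∀ p ∈ Cs.image (fun c => ((1, c) : ℕ × ℕ)) ∪ Cs.image (fun c => (1, c + t)), p.1 = 1 := by
      intro p hp
      rcases mem_union.1 hp with hp | hp <;> obtain ⟨c, hc, rfl⟩ := mem_image.1 hp <;> rfl
    intro p hp p' hp' hpp he
    apply hpp
    rw [h11 p hp, h11 p' hp', one_mul, one_mul] at he
    exact Prod.ext ((h11 p hp).trans (h11 p' hp').symm) he.symm

lemma shifts_twisted (M D : ℕ) (hM : 1 ≤ M) (S A : Finset ℕ → Set ℕ) (hS : ∀ C, (S C).Infinite)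
    (hA : ∀ C, Scales (A C)) (hW : WeakShifts M D S A) : LinearTwisted := by
  intro P hP hab hprop w hw
  rw [Asymptotics.isLittleO_iff]
  intro ε hε
  have : Nonempty P := hP.to_subtype
  obtain ⟨x₀, hx₀⟩ := Q132.PV.shifts_linear M D hM S A hS hA hW (ι := P) (fun p => p.1.1) (fun p => p.1.2)
    (fun p => hab p.1 p.2) (fun p p' hpp => hprop p.1 p.2 p'.1 p'.2 (fun h => hpp (Subtype.ext h))) w hw ε hε
  filter_upwards [Filter.eventually_ge_atTop x₀] with x hx
  rw [Real.norm_eq_abs, abs_of_nonneg (Nat.cast_nonneg (α := ℝ) x)]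
  refine le_trans (le_of_eq ?_) (hx₀ x hx)
  congr 1
  refine sum_congr rfl fun n _ => ?_
  congr 2
  exact (prod_coe_sort P (fun p => lam ((p.1 : ℤ) * n + p.2))).symm

lemma lineartwisted_linear (h : LinearTwisted) : LinearForms := by
  intro P hP hab hprop
  have h1 := h P hP hab hprop (fun _ => 1) (fun ε hε => ⟨1, fun s => ⟨0, one_pos, fun m => by simp [hε.le]⟩⟩)
  rw [Asymptotics.isLittleO_iff] at h1 ⊢
  intro ε hε
  filter_upwards [h1 hε] with N hN
  refine le_trans (le_of_eq ?_) hN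
  simp only [mul_one]
  rw [← Complex.ofReal_sum, Complex.norm_real]

theorem result :
    (∀ (M : ℕ) (D : ℝ) (S A : ℤ[X] → Set ℕ), 1 ≤ M → (∀ h, (S h).Infinite) → (∀ h, Scales (A h)) →
      List.TFAE [Chowla, Twisted, WeakMonic M D S A]) ∧
    (∀ (M D : ℕ) (S A : Finset ℕ → Set ℕ), 1 ≤ M → 1 ≤ D → (∀ C, (S C).Infinite) → (∀ C, Scales (A C)) →
      List.TFAE [LinearForms, LinearTwisted, WeakShifts M D S A]) ∧
    (∀ (a q : ℕ) (θ : ℝ), 1 ≤ q → AlmostPeriodic (fun n : ℕ =>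
      if n ≡ a [MOD q] then Complex.exp (2 * Real.pi * Complex.I * θ * n) else 0)) := by
  refine ⟨fun M D S A hM hS hA => ?_, fun M D S A hM hD hS hA => ?_, fun a q θ hq => ?_⟩
  · tfae_have 1 → 3 := fun h => chowla_weak h M D S A
    tfae_have 3 → 2 := fun h => weak_twisted M hM D S A hS hA h
    tfae_have 2 → 1 := twisted_chowla
    tfae_finish
  · tfae_have 1 → 3 := fun h => linear_weak h M D hD S A
    tfae_have 3 → 2 := fun h => shifts_twisted M D hM S A hS hA h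
    tfae_have 2 → 1 := lineartwisted_linear
    tfae_finish
  · exact Q132.PV.ap_example a q hq θ

end Pool.Agent.Results.MP_892e4c_nt.MonicTwoPoint
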