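import Pool.Agent.Q138.PS.Prog
import Pool.Agent.Q138.GS.Lio

/-!
# The Liouville function at integer parts of real multiples of all integral polynomials

Outside a set of real numbers of Hausdorff dimension at most `8/9` (for quadratic polynomials; an explicit
number smaller than `1` for every degree), every `α > 0` has the property that the sums of `λ(⌊α f(n)⌋)` over
`n ≤ N` are smaller than `N / (log N) ^ A` for every `A`, for ALL integral polynomials `f` of the given degree,
uniformly in the coefficients and in progressions with small moduli. The same for the Moebius function.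
-/

set_option autoImplicit false

open Finset Filter Topology MeasureTheory

namespace Pool.Agent.Results.MP_892e4c_nt.RealMultiples

/-- the Liouville function -/
noncomputable def lam (n : ℕ) : ℝ := (-1 : ℝ) ^ ArithmeticFunction.cardFactors n

/-- `f` has degree `q`, positive leading coefficient and coefficients at most `H` in absolute value -/
def Bounded (q : ℕ) (H : ℝ) (f : Polynomial ℤ) : Prop :=
  f.natDegree = q ∧ 0 < f.leadingCoeff ∧ ∀ i, |((f.coeff i : ℤ) : ℝ)| ≤ H

/-- for every function `g` the sums of `g ⌊α f(n)⌋` over all progressions with small moduli are smaller than the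
number of terms by every power of the logarithm, uniformly in the integral polynomials `f` of degree `q` with
coefficients at most `N ^ δ (log N) ^ B` -/
def UniformlySmall (q : ℕ) (δ α : ℝ) (g : ℕ → ℝ) : Prop :=
  ∀ A B : ℕ, ∀ᶠ N : ℕ in atTop, ∀ f : Polynomial ℤ, Bounded q ((N : ℝ) ^ δ * (Real.log N) ^ B) f →
    ∀ r a : ℕ, 1 ≤ r → (r : ℝ) ≤ (Real.log N) ^ B → a < r →
      |∑ n ∈ (Icc 1 N).filter (fun n => n % r = a), g ⌊α * ((f.eval (n : ℤ) : ℤ) : ℝ)⌋₊| ≤ (N : ℝ) / (Real.log N) ^ A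

theorem lam_eq (n : ℕ) : ((lam n : ℝ) : ℂ) = Pool.Agent.Y957.VK.liou n := Pool.Agent.Q138.GS.lamR_eq n

theorem one_le (m : ℕ) : (1 : ℝ) ≤ Real.log ((m : ℝ) + 3) := by
  have := Pool.Agent.Q138.GS.lg3 m
  exact this

theorem core (q : ℕ) (hq : 2 ≤ q) (δ : ℝ) (hδ : 0 ≤ δ) (hδ' : δ < Pool.Agent.Q138.PS.kp q) (g : ℕ → ℝ)
    (hg : ∀ m, |g m| ≤ 1) (hN : Pool.Agent.Y957.VK.Neg fun m => ((g m : ℝ) : ℂ)) :
    ∃ E : Set ℝ, dimH E ≤ ENNReal.ofReal ((q + (q + 2) * δ) / (q + Pool.Agent.Q138.PS.kp q)) ∧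
      ∀ α : ℝ, 0 < α → α ∉ E → UniformlySmall q δ α g := by
  have hkp4 := Pool.Agent.Q138.PS.kp_le hq
  refine ⟨_, Pool.Agent.Q138.PS.int_dim2 q hq hδ hδ' (fun m => ((g m : ℝ) : ℂ)) (fun m => ?_) hN, ?_⟩
  · rw [Complex.norm_real, Real.norm_eq_abs]
    exact (hg m).trans (one_le m)
  · intro α hα hE
    rw [Set.mem_ofPred_eq, not_and, not_not] at hE
    have hgood := hE hα
    intro A B
    have h1 := Pool.Agent.Q138.PS.prog q hδ (by linarith) (fun z : ℤ => ((g ⌊α * (z : ℝ)⌋₊ : ℝ) : ℂ)) (fun z => by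
      rw [Complex.norm_real, Real.norm_eq_abs]
      exact hg _) (fun A B => by
        filter_upwards [hgood A B] with N hN P hP using hN P hP.1 hP.2.1 hP.2.2) A B
    filter_upwards [h1] with N hN f hf r a hr hrB ha
    have h2 := hN f hf r a hr hrB ha
    rw [← Complex.ofReal_sum, Complex.norm_real, Real.norm_eq_abs] at h2
    exact h2

theorem result (q : ℕ) (hq : 2 ≤ q) (δ : ℝ) (hδ : 0 ≤ δ) (hδ' : δ < 1 / (q * 2 ^ (q - 1))) :
    ∃ E : Set ℝ, dimH E ≤ ENNReal.ofReal ((q + (q + 2) * δ) / (q + 1 / (q * 2 ^ (q - 1)))) ∧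
      ∀ α : ℝ, 0 < α → α ∉ E →
        UniformlySmall q δ α lam ∧ UniformlySmall q δ α (fun n => ((ArithmeticFunction.moebius n : ℤ) : ℝ)) := by
  have hkp : Pool.Agent.Q138.PS.kp q = 1 / (q * 2 ^ (q - 1)) := rfl
  rw [← hkp] at hδ' ⊢
  obtain ⟨E1, hE1, h1⟩ := core q hq δ hδ hδ' lam (fun m => by
    rcases Pool.Agent.Q138.GS.lamR_pm m with h | h
    · have : lam m = 1 := h
      rw [this]
      simp
    · have : lam m = -1 := h
      rw [this]
      simp) (by
    have : (fun m => ((lam m : ℝ) : ℂ)) = Pool.Agent.Y957.VK.liou := funext lam_eq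
    rw [this]
    exact Pool.Agent.Y957.VK.neg_liou)
  obtain ⟨E2, hE2, h2⟩ := core q hq δ hδ hδ' (fun n => ((ArithmeticFunction.moebius n : ℤ) : ℝ)) (fun m => by
    have h3 := ArithmeticFunction.abs_moebius_le_one (n := m)
    exact_mod_cast h3) (by
    have : (fun m : ℕ => ((((ArithmeticFunction.moebius m : ℤ) : ℝ)) : ℂ)) =
        fun n => ((ArithmeticFunction.moebius n : ℤ) : ℂ) := by
      funext m
      push_cast
      rfl
    rw [this]
    exact Pool.Agent.Y957.VK.neg_mu)
  refine ⟨E1 ∪ E2, ?_, fun α hα hE => ⟨h1 α hα fun h => hE (Or.inl h), h2 α hα fun h => hE (Or.inr h)⟩⟩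
  rw [dimH_union]
  exact max_le hE1 hE2

end Pool.Agent.Results.MP_892e4c_nt.RealMultiples
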